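import Pool.Agent.N640.DS.Exists
import Pool.Agent.N640.DS.Real

set_option autoImplicit false

/-!
# A `Q`-set of reals whose square is not a `Δ`-set

It is consistent that there is a `Q`-set `X ⊆ ℝ` (hence a `Δ`-set), of size `ℵ₁`, such that
`X × X` is not a `Δ`-set.

* Part 1: the combinatorial principle `Principle Om c` can be forced, for some function
  `c : ω₁ × ω₁ → ω` of the ground model. The forcing has the countable chain condition. Its
  conditions are finite sets of promises about `ℵ₁` many generic points `x (ξ, i)` of the Cantor
  space and about sequences of open sets indexed by a set `Γ` of size `2 ^ ℵ₁`. The elements of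
  `Γ` list all nice names for subsets of the set of generic points; the names refer to the
  conditions themselves, so no iteration is needed.
* Part 2: the principle, for actual objects, implies that there is such a set of reals.
-/

namespace Pool.Agent.Results.MP_d5ec8b_lc.QSetSquareNotDelta

open Set Cardinal
open Pool.Agent.Helper292.SP (fnot fand fall fimp fiff fex fground meets IsFun)

/-- The well-ordered set of the countable ordinals (order type `ω₁`). -/
abbrev Om : Type := (ℵ₁ : Cardinal.{0}).ord.ToType

/-! ### The principle -/

/-- The finite sequence `s` of bits is an initial segment of the characteristic function of `y`. -/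
def Begins (s : List Bool) (y : ℕ → Prop) : Prop :=
  ∀ i : Fin s.length, (y i ↔ s.get i = true)

/-- `W n` codes an open subset of the square of the Cantor space: the union of the products of the
cones of `u` and `v`, for `W n u v`. The pair `(y, z)` belongs to it. -/
def InOpen (W : ℕ → List Bool → List Bool → Prop) (n : ℕ) (y z : ℕ → Prop) : Prop :=
  ∃ u v, W n u v ∧ Begins u y ∧ Begins v z

/-- There are distinct points `x (ξ, i)` of the Cantor space (`ξ : A`, `i : Bool`) such that every
subset of the set of these points is a relative `G_δ`, and for no point-finite sequence of open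
sets does the `c ξ η`-th one contain `(x (ξ, true), x (η, false))` for all `ξ` and `η`. -/
def Principle (A : Type) (c : A → A → ℕ) : Prop :=
  ∃ x : A × Bool → ℕ → Prop,
    (∀ α β, α ≠ β → ∃ i, ¬ (x α i ↔ x β i)) ∧
    (∀ Y : A × Bool → Prop, ∃ U : ℕ → List Bool → Prop, ∀ α,
      (Y α ↔ ∀ n, ∃ s, U n s ∧ Begins s (x α))) ∧
    (∀ W : ℕ → List Bool → List Bool → Prop, ¬ ∀ ξ η : A,
      InOpen W (c ξ η) (x (ξ, true)) (x (η, false)) ∧
        ∃ m, ∀ n, m ≤ n → ¬ InOpen W n (x (ξ, true)) (x (η, false)))

/-! ### The same statements in the forcing language -/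

/-- In the extension there is no function from the natural numbers onto the ground model `ω₁`;
so the ground model `ω₁` is still the first uncountable cardinal. -/
def OmegaOnePreserved (P : Type) [Preorder P] : Set P :=
  fnot (fex fun R : ℕ → Om → Set P => fand (IsFun R) (fall fun a : Om => fex fun n : ℕ =>
    meets (R n a)))

/-- `Begins` in the forcing language. -/
def BeginsF {P : Type} [Preorder P] (s : List Bool) (y : ℕ → Set P) : Set P :=
  fall fun i : Fin s.length => fiff (meets (y i)) (fground (s.get i = true))

/-- `InOpen` in the forcing language. -/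
def InOpenF {P : Type} [Preorder P] (W : ℕ → List Bool → List Bool → Set P) (n : ℕ)
    (y z : ℕ → Set P) : Set P :=
  fex fun u => fex fun v => fand (meets (W n u v)) (fand (BeginsF u y) (BeginsF v z))

/-- `Principle` in the forcing language, for a function `c` of the ground model. -/
def PrincipleHolds (P : Type) [Preorder P] (A : Type) (c : A → A → ℕ) : Set P :=
  fex fun x : A × Bool → ℕ → Set P => fand
    (fall fun α => fall fun β => fall fun _ : α ≠ β =>
      fex fun i => fnot (fiff (meets (x α i)) (meets (x β i))))
    (fand
      (fall fun Y : A × Bool → Set P => fex fun U : ℕ → List Bool → Set P => fall fun α =>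
        fiff (meets (Y α)) (fall fun n => fex fun s => fand (meets (U n s)) (BeginsF s (x α))))
      (fall fun W : ℕ → List Bool → List Bool → Set P => fnot (fall fun ξ : A => fall fun η : A =>
        fand (InOpenF W (c ξ η) (x (ξ, true)) (x (η, false)))
          (fex fun m => fall fun n => fall fun _ : m ≤ n =>
            fnot (InOpenF W n (x (ξ, true)) (x (η, false)))))))

/-! ### `Q`-sets and `Δ`-sets -/

/-- `X` is a `Q`-set: every subset of `X` is a relative `G_δ` in `X`. -/
def IsQSet (X : Set ℝ) : Prop := ∀ Y ⊆ X, ∃ G : Set ℝ, IsGδ G ∧ Y = X ∩ G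

/-- `Z` is a `Δ`-space: every partition of `Z` into countably many sets has a point-finite open
expansion. -/
def IsDeltaSpace (Z : Type) [TopologicalSpace Z] : Prop :=
  ∀ D : ℕ → Set Z, (∀ m n, m ≠ n → Disjoint (D m) (D n)) → (⋃ n, D n) = Set.univ →
    ∃ U : ℕ → Set Z, (∀ n, IsOpen (U n)) ∧ (∀ n, D n ⊆ U n) ∧ ∀ z, {n | z ∈ U n}.Finite

/-- **Squares of `Δ`-sets of reals.** -/
theorem result :
    -- (1) the principle can be forced
    (∃ (P : Type) (_ : Preorder P) (c : Om → Om → ℕ), Nonempty P ∧
      ∀ p : P, p ∈ OmegaOnePreserved P ∧ p ∈ PrincipleHolds P Om c) ∧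
    -- (2) the principle gives a `Q`-set whose square is not a `Δ`-set
    (∀ (A : Type) (c : A → A → ℕ), Principle A c →
      ∃ X : Set ℝ, (#A = ℵ₁ → #X = ℵ₁) ∧ IsQSet X ∧ IsDeltaSpace X ∧ ¬ IsDeltaSpace (X × X)) :=
  ⟨Pool.Agent.N640.DS.exists_forcing, fun _ _ h => Pool.Agent.N640.DS.realize h⟩

end Pool.Agent.Results.MP_d5ec8b_lc.QSetSquareNotDelta
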